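import Mathlib
import Pool.Agent.H182Z.Opp

set_option autoImplicit false

namespace Pool.Agent.Results.MP_1e9cc8_nt.AThresholdsFail

/-- Ten of the twelve thresholds listed with the conjecture are not admissible. -/
theorem result :
    ∀ kN ∈ ([(2, 16), (3, 36), (4, 46), (5, 76), (7, 79), (8, 85), (9, 118), (10, 136),
        (12, 155), (13, 188)] : List (ℕ × ℕ)),
      ¬ (∀ n : ℕ, kN.2 < n →
          kN.1 ≤ ((Finset.Icc (n ^ 2 - n) (n ^ 2)).filter Nat.Prime).card ∧
          kN.1 ≤ ((Finset.Icc (n ^ 2) (n ^ 2 + n)).filter Nat.Prime).card) :=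
  Pool.Agent.H182Z.Opp.main

end Pool.Agent.Results.MP_1e9cc8_nt.AThresholdsFail
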